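import Mathlib
import Pool.Agent.Helper61.NormAdd.NoGap

/-!
# Surjective norm-additive maps between positive cones of C*-algebras are restrictions of
bounded linear maps
-/

set_option autoImplicit false

namespace Pool.Agent.Results.MP_c8dc36_an.LinearExtension

universe u v

/-- The positive cone of a (complex, possibly non-unital) C*-algebra: the self-adjoint elements all
of whose spectral values are real and nonnegative. (`quasispectrum ℂ a` is the spectrum of `a` in the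
algebra with a unit adjoined; for a unital algebra it is the spectrum of `a` together with `0`.) -/
def PosCone (A : Type u) [NonUnitalCStarAlgebra A] : Set A :=
  {a | IsSelfAdjoint a ∧ ∀ z ∈ quasispectrum ℂ a, 0 ≤ z.re ∧ z.im = 0}

theorem mem_posCone_iff {A : Type u} [NonUnitalCStarAlgebra A] [PartialOrder A] [StarOrderedRing A]
    (a : A) : a ∈ PosCone A ↔ 0 ≤ a := by
  constructor
  · rintro ⟨h1, h2⟩
    rw [StarOrderedRing.nonneg_iff_quasispectrum_nonneg (R := ℝ) a h1]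
    intro x hx
    have h3 : algebraMap ℝ ℂ x ∈ quasispectrum ℂ a := (quasispectrum.algebraMap_mem_iff ℂ).2 hx
    simpa using (h2 _ h3).1
  · intro h
    have h1 : IsSelfAdjoint a := .of_nonneg h
    refine ⟨h1, fun z hz => ?_⟩
    have h2 := (StarOrderedRing.nonneg_iff_quasispectrum_nonneg (R := ℝ) a h1).1 h
    have h3 : z = algebraMap ℝ ℂ z.re := by
      have := h1.quasispectrumRestricts.rightInvOn hz
      simpa using this.symm
    have h4 : z.re ∈ quasispectrum ℝ a := by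
      rw [← quasispectrum.algebraMap_mem_iff ℂ, ← h3]
      exact hz
    refine ⟨h2 _ h4, ?_⟩
    rw [h3]; simp

section Extension

open scoped ComplexStarModule
open Complex

variable {A₁ : Type u} {A₂ : Type v} [NonUnitalCStarAlgebra A₁] [PartialOrder A₁]
  [StarOrderedRing A₁] [NonUnitalCStarAlgebra A₂] [PartialOrder A₂] [StarOrderedRing A₂]

theorem T_zero {T : A₁ → A₂} (hadd : ∀ f g : A₁, 0 ≤ f → 0 ≤ g → T (f + g) = T f + T g) :
    T 0 = 0 := by
  have := hadd 0 0 le_rfl le_rfl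
  simpa using this

theorem T_nsmul {T : A₁ → A₂} (hadd : ∀ f g : A₁, 0 ≤ f → 0 ≤ g → T (f + g) = T f + T g)
    (n : ℕ) {a : A₁} (ha : 0 ≤ a) : T ((n : ℝ) • a) = (n : ℝ) • T a := by
  induction n with
  | zero => simp [T_zero hadd]
  | succ n ih =>
    push_cast
    rw [add_smul, add_smul, one_smul, one_smul,
      hadd _ _ (smul_nonneg (Nat.cast_nonneg n) ha) ha, ih]

theorem T_mono {T : A₁ → A₂} (hT0 : ∀ a : A₁, 0 ≤ a → 0 ≤ T a)
    (hadd : ∀ f g : A₁, 0 ≤ f → 0 ≤ g → T (f + g) = T f + T g) {a b : A₁} (ha : 0 ≤ a)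
    (hab : a ≤ b) : T a ≤ T b := by
  have h := hadd a (b - a) ha (sub_nonneg.2 hab)
  rw [add_sub_cancel] at h
  rw [h]
  exact le_add_of_nonneg_right (hT0 _ (sub_nonneg.2 hab))

theorem T_smul {T : A₁ → A₂} (hT0 : ∀ a : A₁, 0 ≤ a → 0 ≤ T a)
    (hadd : ∀ f g : A₁, 0 ≤ f → 0 ≤ g → T (f + g) = T f + T g) {r : ℝ} (hr : 0 ≤ r) {a : A₁}
    (ha : 0 ≤ a) : T (r • a) = r • T a := by
  have hra : 0 ≤ r • a := smul_nonneg hr ha
  have key : ∀ n : ℕ, (n : ℝ) * ‖T (r • a) - r • T a‖ ≤ 2 * ‖T a‖ := by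
    intro n
    set m : ℕ := ⌊(n : ℝ) * r⌋₊ with hm
    have hnr : 0 ≤ (n : ℝ) * r := by positivity
    have hm1 : (m : ℝ) ≤ n * r := Nat.floor_le hnr
    have hm2 : (n : ℝ) * r ≤ (m : ℝ) + 1 := (Nat.lt_floor_add_one _).le
    -- the element `T ((n r) a)`
    have h1 : T (((n : ℝ) * r) • a) = (n : ℝ) • T (r • a) := by
      rw [mul_smul, T_nsmul hadd n hra]
    have h2 : (m : ℝ) • T a ≤ T (((n : ℝ) * r) • a) := by
      rw [← T_nsmul hadd m ha]
      exact T_mono hT0 hadd (smul_nonneg (Nat.cast_nonneg m) ha)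
        (smul_le_smul_of_nonneg_right hm1 ha)
    have h3 : T (((n : ℝ) * r) • a) ≤ ((m : ℝ) + 1) • T a := by
      have : ((m : ℝ) + 1) • T a = T (((m + 1 : ℕ) : ℝ) • a) := by
        rw [T_nsmul hadd (m + 1) ha]; push_cast; rfl
      rw [this]
      apply T_mono hT0 hadd (smul_nonneg hnr ha)
      apply smul_le_smul_of_nonneg_right _ ha
      push_cast; exact hm2
    have hTa : 0 ≤ T a := hT0 a ha
    have h4 : ‖T (((n : ℝ) * r) • a) - (m : ℝ) • T a‖ ≤ ‖T a‖ := by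
      apply CStarAlgebra.norm_le_norm_of_nonneg_of_le (sub_nonneg.2 h2)
      rw [sub_le_iff_le_add]
      refine h3.trans (le_of_eq ?_)
      rw [add_smul, one_smul, add_comm]
    have h5 : ‖((n : ℝ) * r) • T a - (m : ℝ) • T a‖ ≤ ‖T a‖ := by
      rw [← sub_smul, norm_smul, Real.norm_of_nonneg (by linarith)]
      have : (n : ℝ) * r - m ≤ 1 := by linarith
      nlinarith [norm_nonneg (T a)]
    have h6 : (n : ℝ) * ‖T (r • a) - r • T a‖ =
        ‖(T (((n : ℝ) * r) • a) - (m : ℝ) • T a) - (((n : ℝ) * r) • T a - (m : ℝ) • T a)‖ := by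
      rw [sub_sub_sub_cancel_right, h1, mul_smul, ← smul_sub, norm_smul,
        Real.norm_of_nonneg (Nat.cast_nonneg n)]
    rw [h6]
    calc _ ≤ _ := norm_sub_le _ _
      _ ≤ 2 * ‖T a‖ := by linarith
  by_contra hne
  have hpos : 0 < ‖T (r • a) - r • T a‖ := norm_pos_iff.2 (sub_ne_zero.2 hne)
  obtain ⟨n, hn⟩ := exists_nat_gt (2 * ‖T a‖ / ‖T (r • a) - r • T a‖)
  rw [div_lt_iff₀ hpos] at hn
  have := key n
  linarith

/-- the extension to self-adjoint elements -/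
noncomputable def S (T : A₁ → A₂) (h : A₁) : A₂ := T h⁺ - T h⁻

theorem S_eq {T : A₁ → A₂} (hadd : ∀ f g : A₁, 0 ≤ f → 0 ≤ g → T (f + g) = T f + T g)
    {p q h : A₁} (hp : 0 ≤ p) (hq : 0 ≤ q) (hh : h = p - q) : S T h = T p - T q := by
  have hsa : IsSelfAdjoint h := by
    rw [hh]; exact (IsSelfAdjoint.of_nonneg hp).sub (.of_nonneg hq)
  have h1 : h⁺ - h⁻ = h := CFC.posPart_sub_negPart h hsa
  have h2 : h⁺ + q = p + h⁻ := by
    have h5 : h⁺ = h + h⁻ := sub_eq_iff_eq_add.1 h1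
    rw [h5, hh]; abel
  have h3 := hadd _ _ (CFC.posPart_nonneg h) hq
  have h4 := hadd _ _ hp (CFC.negPart_nonneg h)
  rw [h2, h4] at h3
  unfold S
  rw [sub_eq_sub_iff_add_eq_add, ← h3]

theorem S_add {T : A₁ → A₂} (hadd : ∀ f g : A₁, 0 ≤ f → 0 ≤ g → T (f + g) = T f + T g)
    {h k : A₁} (hh : IsSelfAdjoint h) (hk : IsSelfAdjoint k) : S T (h + k) = S T h + S T k := by
  have h1 : h⁺ - h⁻ = h := CFC.posPart_sub_negPart h hh
  have h2 : k⁺ - k⁻ = k := CFC.posPart_sub_negPart k hk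
  have ph := CFC.posPart_nonneg h
  have nh := CFC.negPart_nonneg h
  have pk := CFC.posPart_nonneg k
  have nk := CFC.negPart_nonneg k
  rw [S_eq hadd (add_nonneg ph pk) (add_nonneg nh nk) (by
    calc h + k = (h⁺ - h⁻) + (k⁺ - k⁻) := by rw [h1, h2]
      _ = _ := by abel), hadd _ _ ph pk, hadd _ _ nh nk]
  unfold S
  abel

theorem S_neg {T : A₁ → A₂} (hadd : ∀ f g : A₁, 0 ≤ f → 0 ≤ g → T (f + g) = T f + T g)
    {h : A₁} (hh : IsSelfAdjoint h) : S T (-h) = - S T h := by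
  have h1 : h⁺ - h⁻ = h := CFC.posPart_sub_negPart h hh
  rw [S_eq hadd (CFC.negPart_nonneg h) (CFC.posPart_nonneg h) (by
    calc -h = -(h⁺ - h⁻) := by rw [h1]
      _ = _ := by abel)]
  unfold S
  abel

theorem S_smul {T : A₁ → A₂} (hT0 : ∀ a : A₁, 0 ≤ a → 0 ≤ T a)
    (hadd : ∀ f g : A₁, 0 ≤ f → 0 ≤ g → T (f + g) = T f + T g)
    {h : A₁} (hh : IsSelfAdjoint h) (r : ℝ) : S T (r • h) = r • S T h := by
  have aux : ∀ r : ℝ, 0 ≤ r → S T (r • h) = r • S T h := by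
    intro r hr
    have h1 : h⁺ - h⁻ = h := CFC.posPart_sub_negPart h hh
    rw [S_eq hadd (smul_nonneg hr (CFC.posPart_nonneg h)) (smul_nonneg hr (CFC.negPart_nonneg h))
      (by rw [← smul_sub, h1]), T_smul hT0 hadd hr (CFC.posPart_nonneg h),
      T_smul hT0 hadd hr (CFC.negPart_nonneg h)]
    unfold S
    rw [smul_sub]
  rcases le_total 0 r with hr | hr
  · exact aux r hr
  · have h1 := aux (-r) (by linarith)
    rw [neg_smul, neg_smul, S_neg hadd ((IsSelfAdjoint.all r).smul hh)] at h1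
    exact neg_injective h1

theorem S_pos {T : A₁ → A₂} (hadd : ∀ f g : A₁, 0 ≤ f → 0 ≤ g → T (f + g) = T f + T g)
    {a : A₁} (ha : 0 ≤ a) : S T a = T a := by
  rw [S_eq hadd ha le_rfl (by simp), T_zero hadd, sub_zero]

theorem csmul_eq {B : Type*} [AddCommGroup B] [Module ℂ B] (c : ℂ) (b : B) :
    c • b = c.re • b + c.im • (I • b) := by
  conv_lhs => rw [← re_add_im c]
  rw [add_smul, mul_smul, Complex.coe_smul, Complex.coe_smul]

/-- the complex-linear extension -/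
noncomputable def Lin (T : A₁ → A₂) (hT0 : ∀ a : A₁, 0 ≤ a → 0 ≤ T a)
    (hadd : ∀ f g : A₁, 0 ≤ f → 0 ≤ g → T (f + g) = T f + T g) : A₁ →ₗ[ℂ] A₂ :=
  let F : A₁ → A₂ := fun a => S T (ℜ a : A₁) + I • S T (ℑ a : A₁)
  have hFadd : ∀ a b, F (a + b) = F a + F b := by
    intro a b
    simp only [F, map_add, AddSubgroup.coe_add]
    rw [S_add hadd (ℜ a).2 (ℜ b).2, S_add hadd (ℑ a).2 (ℑ b).2, smul_add]
    abel
  have hFreal : ∀ (r : ℝ) a, F (r • a) = r • F a := by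
    intro r a
    simp only [F, map_smul, selfAdjoint.val_smul]
    rw [S_smul hT0 hadd (ℜ a).2, S_smul hT0 hadd (ℑ a).2, smul_add, smul_comm I r]
  have hFI : ∀ a, F (I • a) = I • F a := by
    intro a
    simp only [F, realPart_I_smul, imaginaryPart_I_smul, AddSubgroup.coe_neg]
    rw [S_neg hadd (ℑ a).2, smul_add, smul_smul, I_mul_I, neg_one_smul]
    abel
  { toFun := F
    map_add' := hFadd
    map_smul' := by
      intro c a
      rw [RingHom.id_apply, csmul_eq c a, hFadd, hFreal, hFreal, hFI, csmul_eq c (F a)] }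

theorem Lin_apply (T : A₁ → A₂) (hT0 : ∀ a : A₁, 0 ≤ a → 0 ≤ T a)
    (hadd : ∀ f g : A₁, 0 ≤ f → 0 ≤ g → T (f + g) = T f + T g) (a : A₁) :
    Lin T hT0 hadd a = S T (ℜ a : A₁) + I • S T (ℑ a : A₁) := rfl

theorem Lin_pos (T : A₁ → A₂) (hT0 : ∀ a : A₁, 0 ≤ a → 0 ≤ T a)
    (hadd : ∀ f g : A₁, 0 ≤ f → 0 ≤ g → T (f + g) = T f + T g) {a : A₁} (ha : 0 ≤ a) :
    Lin T hT0 hadd a = T a := by
  have hsa : IsSelfAdjoint a := .of_nonneg ha
  rw [Lin_apply, hsa.coe_realPart, hsa.imaginaryPart, S_pos hadd ha]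
  have : S T ((0 : selfAdjoint A₁) : A₁) = 0 := by
    rw [ZeroMemClass.coe_zero, S_pos hadd le_rfl, T_zero hadd]
  rw [this, smul_zero, add_zero]

theorem exists_unique_ext (T : A₁ → A₂) (hT0 : ∀ a : A₁, 0 ≤ a → 0 ≤ T a)
    (hadd : ∀ f g : A₁, 0 ≤ f → 0 ≤ g → T (f + g) = T f + T g) :
    ∃! L : A₁ →L[ℂ] A₂, ∀ a : A₁, 0 ≤ a → L a = T a := by
  set P : A₁ →ₚ[ℂ] A₂ := PositiveLinearMap.mk₀ (Lin T hT0 hadd) (by
    intro a ha
    rw [Lin_pos T hT0 hadd ha]
    exact hT0 a ha) with hP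
  have hPa : ∀ a, P a = Lin T hT0 hadd a := fun a => rfl
  have hcont : Continuous P := map_continuous P
  refine ⟨⟨Lin T hT0 hadd, hcont⟩, fun a ha => Lin_pos T hT0 hadd ha, ?_⟩
  intro L' hL'
  ext a
  change L' a = Lin T hT0 hadd a
  have hS : ∀ h : A₁, IsSelfAdjoint h → L' h = S T h := by
    intro h hh
    have h1 : h⁺ - h⁻ = h := CFC.posPart_sub_negPart h hh
    calc L' h = L' (h⁺ - h⁻) := by rw [h1]
      _ = T h⁺ - T h⁻ := by
        rw [map_sub, hL' _ (CFC.posPart_nonneg h), hL' _ (CFC.negPart_nonneg h)]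
  rw [Lin_apply, ← hS _ (ℜ a).2, ← hS _ (ℑ a).2, ← map_smul, ← map_add,
    realPart_add_I_smul_imaginaryPart]

end Extension

/-- Every map `T` from the positive cone of a C*-algebra `A₁` onto the positive cone of a C*-algebra
`A₂` with `‖T f + T g‖ = ‖T (f + g)‖` for all `f`, `g` in the cone is the restriction to the cone
of a unique bounded complex-linear map `A₁ → A₂`; in particular it is additive. -/
theorem result (A₁ : Type u) (A₂ : Type v) [NonUnitalCStarAlgebra A₁] [NonUnitalCStarAlgebra A₂]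
    (T : A₁ → A₂) (hmaps : Set.MapsTo T (PosCone A₁) (PosCone A₂))
    (hsurj : Set.SurjOn T (PosCone A₁) (PosCone A₂))
    (hnorm : ∀ f ∈ PosCone A₁, ∀ g ∈ PosCone A₁, ‖T f + T g‖ = ‖T (f + g)‖) :
    (∀ f ∈ PosCone A₁, ∀ g ∈ PosCone A₁, T (f + g) = T f + T g) ∧
      ∃! L : A₁ →L[ℂ] A₂, ∀ a ∈ PosCone A₁, L a = T a := by
  let _ : PartialOrder A₁ := CStarAlgebra.spectralOrder A₁
  let _ : StarOrderedRing A₁ := CStarAlgebra.spectralOrderedRing A₁
  let _ : PartialOrder A₂ := CStarAlgebra.spectralOrder A₂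
  let _ : StarOrderedRing A₂ := CStarAlgebra.spectralOrderedRing A₂
  have hT0 : ∀ a : A₁, 0 ≤ a → 0 ≤ T a := fun a ha =>
    (mem_posCone_iff _).1 (hmaps ((mem_posCone_iff a).2 ha))
  have hs : ∀ b : A₂, 0 ≤ b → ∃ a : A₁, 0 ≤ a ∧ T a = b := by
    intro b hb
    obtain ⟨a, ha, hab⟩ := hsurj ((mem_posCone_iff b).2 hb)
    exact ⟨a, (mem_posCone_iff a).1 ha, hab⟩
  have hn : ∀ f g : A₁, 0 ≤ f → 0 ≤ g → ‖T f + T g‖ = ‖T (f + g)‖ := fun f g hf hg =>
    hnorm f ((mem_posCone_iff f).2 hf) g ((mem_posCone_iff g).2 hg)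
  have hadd : ∀ f g : A₁, 0 ≤ f → 0 ≤ g → T (f + g) = T f + T g := by
    intro f g hf hg
    by_contra hne
    have hsum0 : 0 ≤ T f + T g := add_nonneg (hT0 f hf) (hT0 g hg)
    have hw0 : 0 ≤ T (f + g) := hT0 _ (add_nonneg hf hg)
    set h : A₂ := T f + T g - T (f + g) with hh
    have hhsa : IsSelfAdjoint h := (IsSelfAdjoint.of_nonneg hsum0).sub (.of_nonneg hw0)
    have hpos : 0 < ‖h‖ := by
      rw [norm_pos_iff]
      intro h0
      exact hne (sub_eq_zero.1 h0).symm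
    have hmax := hhsa.norm_eq_max_norm_posPart_negPart
    rcases max_choice ‖h⁺‖ ‖h⁻‖ with hm | hm
    · rw [hm] at hmax
      exact Pool.Agent.Helper61.NormAdd.no_gap T hT0 hs hn hf hg hhsa hpos hmax.symm
        (Or.inl (by rw [hh]; abel))
    · rw [hm] at hmax
      refine Pool.Agent.Helper61.NormAdd.no_gap T hT0 hs hn hf hg (h := -h) hhsa.neg (by rwa [norm_neg]) ?_
        (Or.inr (by rw [hh]; abel))
      rw [CFC.posPart_neg, norm_neg]
      exact hmax.symm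
  refine ⟨fun f hf g hg => hadd f g ((mem_posCone_iff f).1 hf) ((mem_posCone_iff g).1 hg), ?_⟩
  obtain ⟨L, hL, huniq⟩ := exists_unique_ext T hT0 hadd
  refine ⟨L, fun a ha => hL a ((mem_posCone_iff a).1 ha), fun L' hL' => huniq L' fun a ha =>
    hL' a ((mem_posCone_iff a).2 ha)⟩

end Pool.Agent.Results.MP_c8dc36_an.LinearExtension
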